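import Pool.Agent.H413.NK.Kur
import Pool.Agent.H413.NK.AlgV

set_option autoImplicit false

/-!
Nonstable K-theory of von Neumann regular rings and of C*-algebras of real rank zero: among the
positive cones of dimension groups, neither class of monoids contains the other.
-/

namespace Pool.Agent.Results.MP_53c861_al.DimensionGroups

open Pool.Agent.H494R3.NK Pool.Agent.H413.NK Pool.Agent.Y78.NK

universe u

theorem result :
    (∃ (R : Type) (_ : Ring R), (∀ x : R, ∃ y : R, x * y * x = x) ∧ IsDimensionCone (VV R) ∧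
      ∀ (A : Type u) [NonUnitalCStarAlgebra A], RealRankZero A → ¬ Nonempty (VV R ≃+ VV A)) ∧
    (∃ (A : Type) (_ : CStarAlgebra A), RealRankZero A ∧ IsDimensionCone (VV A) ∧
      ∀ (R : Type u) [NonUnitalRing R], (∀ x : R, ∃ y : R, x * y * x = x) →
        ¬ Nonempty (VV A ≃+ VV R)) := by
  constructor
  · refine ⟨Rg Ind5, inferInstance, Rg_regular, (sheafy Ind5).isDimensionCone, ?_⟩
    rintro A _ hA ⟨φ⟩
    exact no_pat hA ((patR Ind5).trans φ)
  · obtain ⟨F, ⟨z, hz⟩, hrot⟩ := exists_fam
    refine ⟨Alg F Ind, inferInstance, alg_rr0 F Ind, (sheafyF F Ind).isDimensionCone, ?_⟩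
    rintro R _ hR ⟨e⟩
    obtain ⟨c, hc⟩ := urp hR (e (cl1 (1 : Alg F Ind) (one_mul 1))) (fun i => e (cA F Ind i))
      (fun i => e (cB F Ind i)) (by
        intro i
        rw [← map_add]
        congr 1
        exact cl1_add (pr F Ind i) (pr_idem F Ind i))
    refine main_false F z hz hrot (fun i j => e.symm (c i j)) ?_
    intro i j k
    obtain ⟨h1, h2, h3, h4⟩ := hc i j k
    refine ⟨?_, ?_, ?_, ?_⟩
    · have := le_of_equiv e h1
      rwa [e.symm_apply_apply] at this
    · have := le_of_equiv e h2
      rwa [e.symm_apply_apply] at this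
    · have := le_of_equiv e h3
      rwa [map_add, e.symm_apply_apply, e.symm_apply_apply] at this
    · have := le_of_equiv e h4
      rwa [map_add] at this

end Pool.Agent.Results.MP_53c861_al.DimensionGroups
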